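import Pool.Agent.P.MP_2b866c_nt.Tail

set_option autoImplicit false

open Filter Pool.Agent.P.MP_2b866c_nt

namespace Pool.Agent.P.MP_2b866c_nt.Old.TailCriterion

/-- For every `B ≥ 2`: the assertion of the problem holds if and only if all heights are finite
and the heights above `(log x)^B` contribute `o(x log x)` to the sum of the heights up to `x`. -/
theorem result (B : ℕ) (hB : 2 ≤ B) :
    ((∀ m : ℕ, Odd m → FiniteHeight m) ∧ Asymptotics.IsEquivalent atTop
      (fun x : ℝ => (2 / x) * ∑ m ∈ (Finset.Icc 1 ⌊x⌋₊).filter (fun m => Odd m), (height m : ℝ))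
      (fun x : ℝ => 2 * Real.log x / Real.log (16 / 9))) ↔
    ((∀ m : ℕ, Odd m → FiniteHeight m) ∧ Asymptotics.IsLittleO atTop
      (fun x : ℝ => ∑ m ∈ (Finset.Icc 1 ⌊x⌋₊).filter
        (fun m => Odd m ∧ Real.log x ^ B < (height m : ℝ)), (height m : ℝ))
      (fun x : ℝ => x * Real.log x)) :=
  and_congr_right fun hfin => tail_iff hfin hB

end Pool.Agent.P.MP_2b866c_nt.Old.TailCriterion
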